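import Pool.Agent.Q192.DM.Irr

/-! MP_0a1f67_ag, Q1 and Q2: both statements are true for all graphs. -/

set_option autoImplicit false

open Pool.Agent.Q192.DM

namespace Pool.Agent.Results.MP_0a1f67_ag.DoubleMarkovSmooth

/-- Q1: if the double Markovian correlation model `M₁(G, H)` has dimension `|E_G ∩ E_H|`, then it
is a smooth embedded submanifold.
Q2: if `M₁(G, H)` is a smooth embedded submanifold, then its Zariski closure in the space of
symmetric matrices is irreducible. -/
theorem result :
    (∀ (n : ℕ) (G H : SimpleGraph (Fin n)),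
      dimension (corrModel G H) = (G.edgeSet ∩ H.edgeSet).ncard →
        IsSmoothSubmanifold (corrModel G H)) ∧
    (∀ (n : ℕ) (G H : SimpleGraph (Fin n)),
      IsSmoothSubmanifold (corrModel G H) → ZIrreducible (zClosure (corrModel G H))) :=
  ⟨fun _ G H h => q1 G H h, fun _ G H h => q2 G H h⟩

end Pool.Agent.Results.MP_0a1f67_ag.DoubleMarkovSmooth
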